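import Pool.Agent.Lib.MP_bc213e_ag.SB.M.Main
import Pool.Agent.Lib.MP_bc213e_ag.SB.D.Nef
import Pool.Agent.Lib.MP_bc213e_ag.SB.D.Reg

/-! Descent of a nef line bundle that is trivial on the generic fibre. -/

namespace Pool.Agent.Lib.MP_bc213e_ag.SB

open Pool.Agent.Lib.MP_bc213e_ag.Hyp Pool.Agent.Lib.MP_bc213e_ag.KBB Module

variable {K ι : Type} [Field K] [Algebra ℂ K] [Fintype ι] {x g : ι → Kˣ} {i₀ : ι}
  {k : IntermediateField ℂ K}

omit [Fintype ι] in
theorem Tor.torV {θ : K} (tor : Tor x g k θ) : TorV k x g θ := fun V j h1 h2 =>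
  tor j V (fun c hc => (V.valuation_le_one_iff _).1 (h1 ⟨c, hc⟩)) fun r hr =>
    (V.valuation_le_one_iff _).1 (Basic_le _ (cc_le h1) x j h2 r hr)

theorem exists_desc (one : x i₀ = 1) (frac : ∀ i, IsFractionRing (chart x i) K) (hc : Cart x g)
    (hn : Nef x g) (closed : ∀ e : K, IsAlgebraic k e → e ∈ k) {θ : K} (tor : Tor x g k θ) :
    ∃ δ N : ℕ, 0 < δ ∧ Nonempty (Desc x (fun j => g j ^ δ) k (θ ^ δ) N) := by
  classical
  have : Nonempty ι := ⟨i₀⟩
  have : Algebra.EssFiniteType ℂ K := IntermediateField.fg_top_iff.mp (gen_div (k := ℂ) (frac i₀)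
    one_ne_zero ▸ IntermediateField.fg_adjoin_of_finite (Set.finite_range _))
  have := fg_sub k
  have h1 := fun (O : ValuationSubring k) (hO : Ov ∅ O) => (exists_frm (frac i₀) O hO.1).imp
    fun f hf => f.exists_eqn (frac i₀) hc hn (fun e he => ⟨⟨e, closed e he⟩, rfl⟩) tor.torV O hO.1 hf
  choose f q T h2 h3 h4 using h1
  obtain ⟨S, S1, S2⟩ := zr_compact (fun O => {c | ∃ hO, c ∈ T O hO})
    (fun O hO => (T O hO).finite_toSet.subset fun _ h => h.2) fun O hO => ⟨hO.1, fun c h =>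
      h3 O hO c h.2⟩
  obtain ⟨N, y, y1, y2, y3⟩ := exists_model (fun O : S => (T O (S1 O O.2) : Set k))
    (fun O => Finset.finite_toSet _) fun V hV => by
      obtain ⟨O, g1, g2⟩ := S2 V hV
      exact ⟨⟨O, g1⟩, hV.1, fun c hc => g2.2 c ⟨_, hc⟩⟩
  choose i hi using y3
  choose n hn' using fun b => Finset.dvd_prod_of_mem (fun b => (f (i b) (S1 _ (i b).2)).d)
    (Finset.mem_univ b)
  have cmp : ∀ b j (V : ValuationSubring K), (∀ r ∈ chart y b, algebraMap k K r ∈ V) →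
      (∀ r ∈ chart x j, r ∈ V) → V.valuation (algebraMap k K (q (i b) (S1 _ (i b).2) ^ n b : kˣ) *
        θ ^ ∏ b, (f (i b) (S1 _ (i b).2)).d) =
          V.valuation ((g j : K) ^ ∏ b, (f (i b) (S1 _ (i b).2)).d) := fun b j V g1 g2 => by
    have := chart_noeth y b
    have := (y2 b).1
    have := (y2 b).2
    rw [hn' b, Units.val_pow_eq_pow_val, map_pow, pow_mul, pow_mul, ← mul_pow, map_pow,
      h4 _ _ _ (hi b) j V g1 g2, ← map_pow]
  have hT := fun b c hc => hi b c (h2 _ _ hc)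
  refine ⟨_, N, Finset.prod_pos fun b _ => (f (i b) (S1 _ (i b).2)).d_pos,
    ⟨⟨y, _, y1, fun b => (y2 b).1, fun b => (y2 b).2, OW.cart_of_eqn y2 fun a b w ha hb => ?_,
      nef_base y2 hn tor.torV _ hT cmp, cmp, fun b a F g1 g2 => ?_⟩⟩⟩
  · obtain ⟨V, hV⟩ := exists_ext (K := K) w.valuationSubring
    obtain ⟨j, hj⟩ := OW.exists_chart_le x V fun c => (hV _).2 (ha.2.1 _ (algebraMap_mem _ c))
    have g1 := (cmp a j V (fun r hr => (hV r).2 (ha.2.1 r hr)) hj).trans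
      (cmp b j V (fun r hr => (hV r).2 (hb.2.1 r hr)) hj).symm
    rw [map_mul, map_mul,
      mul_left_inj' (V.valuation.pos_iff.2 (pow_ne_zero _ tor.torV.ne)).ne'] at g1
    exact ((Valuation.isEquiv_of_val_le_one (v := V.valuation.comap (algebraMap k K)) (v' := w)
      fun c => (V.valuation_le_one_iff _).trans (hV c)).eq_iff ..).1 g1
  · have := chart_noeth y b
    have := (y2 b).1
    have := (y2 b).2
    refine (f (i b) (S1 _ (i b).2)).hart (Frm.mem_bd _ fun V j g3 g4 => ?_) fun w hw Γ _ Φ h σ => ?_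
    · have g5 := (V.valuation_le_one_iff _).2 (g1 j V (fun c _ => (V.valuation_le_one_iff _).1 (g3 c))
        fun r hr => (V.valuation_le_one_iff _).1 (Basic_le _ (cc_le g3) x j g4 r hr))
      rwa [map_div₀, map_pow, div_le_one₀ (pow_pos (Basic_pos _ _) _)] at g5
    · obtain ⟨j, hj⟩ := Finite.exists_max fun i => Φ.v σ (x i)
      have g5 : Φ.v σ _ ≤ 1 := g2 w hw j (Φ.v σ).valuationSubring (fun c hc => (h.ov σ c).2 hc)
        (Basic_le _ (h.cc σ) x j hj)
      rwa [map_div₀, map_pow, Frm.val_eq _ (fun c hc => hw.2.1 c (hT b c hc)) h σ hj, ← map_pow,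
        ← map_div₀] at g5

theorem reg_bd (one : x i₀ = 1) (frac : ∀ i, IsFractionRing (chart x i) K) (a : ℕ)
    (φ : K →ₗ[k] k) : ∃ (T : Finset k) (n : ℕ), ∀ (O : ValuationSubring k) (c : k), Ov ∅ O →
      c ∈ O → (∀ z ∈ T, c * z ∈ O) → ∀ F, Reg x O a F → c ^ n * φ F ∈ O := by
  have : Nonempty ι := ⟨i₀⟩
  obtain ⟨f, -⟩ := exists_frm (k := k) (frac i₀) ⊤ fun _ => trivial
  obtain ⟨T, n, h⟩ := f.coord_bd (frac i₀) a φ
  exact ⟨T, n, fun O c hO => h O c hO.1⟩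

theorem vv_bound (one : x i₀ = 1) (frac : ∀ i, IsFractionRing (chart x i) K) {θ : K}
    (tor : Tor x g k θ) : ∃ B φ : ℕ, ∀ a, FiniteDimensional k (VV x g k θ a) ∧
      finrank k (VV x g k θ a) ≤ B * (a + 1) ^ φ := by
  have : Nonempty ι := ⟨i₀⟩
  have : CharZero k := charZero_of_injective_algebraMap (algebraMap ℂ k).injective
  obtain ⟨f, -⟩ := exists_frm (k := k) (frac i₀) ⊤ fun _ => trivial
  obtain ⟨B, hB⟩ := DB.gcd_dim f.z (fun i => (x i : K) / f.l0) (fun i => ⟨1, by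
    simpa using f.mem_bd (F := x i) (a := 1) fun V j _ h => by simpa using h i⟩)
    (gen_div (frac i₀) f.ne) (n := f.r) (by simpa using f.tb.cardinalMk_eq_trdeg.symm)
  refine ⟨B, f.r, fun a => ?_⟩
  have := (hB a).1
  have h : VV x g k θ a ≤ (DB.Bd k f.z a).map (LinearMap.mulRight k (f.l0 ^ a)) := by
    refine Submodule.span_le.2 ?_
    rintro s ⟨t, hs⟩
    refine ⟨_, f.sec_bd tor.torV (mem_ST.1 hs), ?_⟩
    rw [LinearMap.mulRight_apply, div_mul_cancel₀ _ (pow_ne_zero _ f.ne), zpow_natCast,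
      mul_div_cancel_right₀ _ (pow_ne_zero _ tor.torV.ne)]
  exact ⟨Submodule.finiteDimensional_of_le h, (Submodule.finrank_mono h).trans
    ((Submodule.finrank_map_le _ _).trans (hB a).2)⟩

end Pool.Agent.Lib.MP_bc213e_ag.SB
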